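import Pool.Agent.H925Z.LieNil

/-!
The monomial `X ^ (n - 1) * Y ^ (n - 1)` of degree `2 n - 2` is not in the ideal generated by the
`n`-th powers of the Lie elements, for every `n` and every field of characteristic `0` or `≥ n`.

Idea: let `X = x + z ∂/∂y` and `Y = y - z ∂/∂x` act on `K[x, y, z]`; the Lie algebra they generate is
the Heisenberg algebra, `U ^ n` maps everything into the `n`-th power of the maximal ideal, and
`X ^ (n - 1) Y ^ (n - 1) 1 = (n - 1)! z ^ (n - 1)` modulo that power.
-/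

set_option autoImplicit false

namespace Pool.Agent.Results.MP_776ebc_al.Disproof

open Pool.Agent.H925Z.LieNil

theorem result (K : Type*) [Field K] (p : ℕ) [CharP K p] (n : ℕ) (hn : 1 ≤ n)
    (hp : p = 0 ∨ n ≤ p) :
    FreeAlgebra.ι K (0 : Fin 2) ^ (n - 1) * FreeAlgebra.ι K (1 : Fin 2) ^ (n - 1) ∉
      nilIdeal K n := by
  obtain ⟨k, rfl⟩ : ∃ k, n = k + 1 := ⟨n - 1, by omega⟩
  rw [Nat.add_sub_cancel]
  apply not_mem
  rw [Ne, CharP.cast_eq_zero_iff K p]
  rcases CharP.char_is_prime_or_zero K p with hpp | h0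
  · rw [hpp.dvd_factorial]
    have := hpp.pos
    omega
  · rw [h0, zero_dvd_iff]
    exact Nat.factorial_ne_zero k

end Pool.Agent.Results.MP_776ebc_al.Disproof
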